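import Pool.Agent.L5helper59.DM.Defs
import Pool.Agent.L5helper18.DC.Persist

/-!
# D7: a sheet `g u^n = θ^n r` near a nondegenerate point of `u`
-/

set_option autoImplicit false

open Finset MvPolynomial Filter Topology

namespace Pool.Agent.L5helper59.DM

namespace Sheet



section

variable {ι τ : Type} [Fintype ι] [Fintype τ]

/-- derivative at `p` in the direction `y` -/
noncomputable def dl (p y : ι → ℂ) (P : MvPolynomial ι ℂ) : ℂ :=
  ∑ i, y i * eval p (pderiv i P)

theorem dl_add (p y : ι → ℂ) (P Q : MvPolynomial ι ℂ) : dl p y (P + Q) = dl p y P + dl p y Q := by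
  unfold dl
  rw [← sum_add_distrib]
  exact sum_congr rfl fun i _ => by rw [map_add, map_add, mul_add]

theorem dl_sub (p y : ι → ℂ) (P Q : MvPolynomial ι ℂ) : dl p y (P - Q) = dl p y P - dl p y Q := by
  unfold dl
  rw [← sum_sub_distrib]
  exact sum_congr rfl fun i _ => by rw [map_sub, map_sub, mul_sub]

theorem dl_mul (p y : ι → ℂ) (P Q : MvPolynomial ι ℂ) :
    dl p y (P * Q) = eval p P * dl p y Q + eval p Q * dl p y P := by
  unfold dl
  rw [mul_sum, mul_sum, ← sum_add_distrib]
  refine sum_congr rfl fun i _ => ?_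
  rw [Derivation.leibniz, smul_eq_mul, smul_eq_mul, map_add, map_mul, map_mul]
  ring

theorem dl_C (p y : ι → ℂ) (a : ℂ) : dl p y (C a) = 0 := by
  unfold dl
  exact sum_eq_zero fun i _ => by rw [pderiv_C, map_zero, mul_zero]

theorem dl_one (p y : ι → ℂ) : dl p y (1 : MvPolynomial ι ℂ) = 0 := by
  rw [← C_1, dl_C]

theorem dl_X (p y : ι → ℂ) (i : ι) : dl p y (X i) = y i := by
  classical
  unfold dl
  rw [sum_eq_single i]
  · rw [pderiv_X_self, map_one, mul_one]
  · intro j _ hj
    rw [pderiv_X_of_ne hj.symm, map_zero, mul_zero]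
  · intro h
    exact absurd (mem_univ _) h

theorem dl_sum {α : Type} (p y : ι → ℂ) (s : Finset α) (f : α → MvPolynomial ι ℂ) :
    dl p y (∑ a ∈ s, f a) = ∑ a ∈ s, dl p y (f a) := by
  unfold dl
  rw [sum_comm]
  refine sum_congr rfl fun i _ => ?_
  rw [map_sum, map_sum, mul_sum]

theorem dl_pow (p y : ι → ℂ) (P : MvPolynomial ι ℂ) (k : ℕ) :
    dl p y (P ^ (k + 1)) = (k + 1) * eval p P ^ k * dl p y P := by
  induction k with
  | zero => simp
  | succ k ih =>
    rw [pow_succ, dl_mul, ih, map_pow]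
    push_cast
    ring

theorem dl_pow' (p y : ι → ℂ) (P : MvPolynomial ι ℂ) (k : ℕ) :
    dl p y (P ^ k) = k * eval p P ^ (k - 1) * dl p y P := by
  cases k with
  | zero => simp [dl_one]
  | succ k => rw [dl_pow]; push_cast; simp

theorem dl_chain (p y : ι → ℂ) (f : τ → MvPolynomial ι ℂ) (P : MvPolynomial τ ℂ) :
    dl p y (aeval f P) = dl (fun w => eval p (f w)) (fun w => dl p y (f w)) P := by
  induction P using MvPolynomial.induction_on with
  | C a => rw [aeval_C, algebraMap_eq, dl_C, dl_C]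
  | add P Q hP hQ => rw [map_add, dl_add, dl_add, hP, hQ]
  | mul_X P i hP =>
    rw [map_mul, dl_mul, dl_mul, hP, aeval_X, dl_X, eval_X]
    congr 2
    have := MvPolynomial.comp_aeval_apply (R := ℂ) (φ := (aeval p : MvPolynomial ι ℂ →ₐ[ℂ] ℂ)) f P
    simpa [MvPolynomial.aeval_eq_eval] using this

omit [Fintype ι] [Fintype τ] in
theorem eval_aeval' (p : ι → ℂ) (f : τ → MvPolynomial ι ℂ) (P : MvPolynomial τ ℂ) :
    eval p (aeval f P) = eval (fun w => eval p (f w)) P := by
  have := MvPolynomial.comp_aeval_apply (R := ℂ) (φ := (aeval p : MvPolynomial ι ℂ →ₐ[ℂ] ℂ)) f P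
  simpa [MvPolynomial.aeval_eq_eval] using this

theorem dl_elim {s : Type} [Fintype s] (a : s → ℂ) (p z : ι → ℂ) (P : MvPolynomial (s ⊕ ι) ℂ) :
    dl (Sum.elim a p) (Sum.elim 0 z) P =
      ∑ i, z i * eval (Sum.elim a p) (pderiv (Sum.inr i) P) := by
  unfold dl
  rw [Fintype.sum_sum_type]
  simp

/-- the polynomials in the old unknowns -/
noncomputable def up (P : MvPolynomial ι ℂ) : MvPolynomial (Unit ⊕ Option ι) ℂ :=
  aeval (fun i => X (Sum.inr (some i))) P

omit [Fintype ι] in
theorem eval_up (c : Unit → ℂ) (q : Option ι → ℂ) (P : MvPolynomial ι ℂ) :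
    eval (Sum.elim c q) (up P) = eval (fun i => q (some i)) P := by
  rw [up, eval_aeval']
  simp

theorem dl_up (c : Unit → ℂ) (q z : Option ι → ℂ) (P : MvPolynomial ι ℂ) :
    dl (Sum.elim c q) (Sum.elim 0 z) (up P) =
      dl (fun i => q (some i)) (fun i => z (some i)) P := by
  rw [up, dl_chain]
  congr 1
  · funext i
    simp
  · funext i
    simp [dl_X]

end

section

variable {ι κ : Type} [Fintype ι]

/-- the bracket of the `i`-th derivative -/
noncomputable def br (u g r : MvPolynomial ι ℂ) (k : ℕ) (i : ι) :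
    MvPolynomial (Unit ⊕ Option ι) ℂ :=
  C ((k : ℂ) + 1) * (up g * (X (Sum.inr none) ^ k * up (pderiv i u))) +
    X (Sum.inl ()) * (X (Sum.inr none) ^ (k + 1) * up (pderiv i g) - up (pderiv i r))

/-- the system -/
noncomputable def QQ (u g r : MvPolynomial ι ℂ) (w : κ → ι → ℂ) (k : ℕ) :
    Option (Option κ) → MvPolynomial (Unit ⊕ Option ι) ℂ
  | none => up u - X (Sum.inl ()) * X (Sum.inr none)
  | some none => up g * X (Sum.inr none) ^ (k + 1) - up r
  | some (some e) => ∑ i, C (w e i) * br u g r k i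

variable (u g r : MvPolynomial ι ℂ) (w : κ → ι → ℂ) (k : ℕ)

omit [Fintype ι] in
theorem eval_br (c : Unit → ℂ) (q : Option ι → ℂ) (i : ι) :
    eval (Sum.elim c q) (br u g r k i) =
      ((k : ℂ) + 1) * (eval (fun i => q (some i)) g * (q none ^ k *
        eval (fun i => q (some i)) (pderiv i u))) +
      c () * (q none ^ (k + 1) * eval (fun i => q (some i)) (pderiv i g) -
        eval (fun i => q (some i)) (pderiv i r)) := by
  simp [br, eval_up]

theorem dl_br (c : Unit → ℂ) (q z : Option ι → ℂ) (i : ι) :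
    dl (Sum.elim c q) (Sum.elim 0 z) (br u g r k i) =
      ((k : ℂ) + 1) * (eval (fun i => q (some i)) g * (q none ^ k *
          dl (fun i => q (some i)) (fun i => z (some i)) (pderiv i u) +
          eval (fun i => q (some i)) (pderiv i u) * (k * q none ^ (k - 1) * z none)) +
        q none ^ k * eval (fun i => q (some i)) (pderiv i u) *
          dl (fun i => q (some i)) (fun i => z (some i)) g) +
      c () * (q none ^ (k + 1) * dl (fun i => q (some i)) (fun i => z (some i)) (pderiv i g) +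
        eval (fun i => q (some i)) (pderiv i g) * ((k + 1) * q none ^ k * z none) -
        dl (fun i => q (some i)) (fun i => z (some i)) (pderiv i r)) := by
  rw [br, dl_add, dl_mul, dl_C, dl_mul, dl_mul, dl_pow', dl_X, dl_up, dl_up, dl_mul, dl_X, dl_sub,
    dl_mul, dl_pow, dl_X, dl_up, dl_up]
  simp [eval_up]

omit [Fintype ι] in
theorem pderiv_H (θ : ℂ) (i : ι) :
    pderiv i (g * u ^ (k + 1) - C (θ ^ (k + 1)) * r) =
      pderiv i g * u ^ (k + 1) + C ((k : ℂ) + 1) * (g * (u ^ k * pderiv i u)) -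
        C (θ ^ (k + 1)) * pderiv i r := by
  rw [map_sub, Derivation.leibniz, Derivation.leibniz, Derivation.leibniz_pow, pderiv_C]
  simp only [smul_eq_mul, nsmul_eq_mul, map_add, map_natCast, map_one, Nat.add_sub_cancel,
    mul_zero, add_zero]
  push_cast
  ring

omit [Fintype ι] in
theorem eval_H (θ : ℂ) (q : Option ι → ℂ)
    (h1 : eval (fun i => q (some i)) u = θ * q none) :
    eval (fun i => q (some i)) (g * u ^ (k + 1) - C (θ ^ (k + 1)) * r) =
      θ ^ (k + 1) * (eval (fun i => q (some i)) g * q none ^ (k + 1) -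
        eval (fun i => q (some i)) r) := by
  simp only [map_sub, map_mul, map_pow, eval_C, h1]
  ring

omit [Fintype ι] in
theorem eval_pderiv_H (θ : ℂ) (q : Option ι → ℂ)
    (h1 : eval (fun i => q (some i)) u = θ * q none) (i : ι) :
    eval (fun i => q (some i)) (pderiv i (g * u ^ (k + 1) - C (θ ^ (k + 1)) * r)) =
      θ ^ k * eval (Sum.elim (fun _ => θ) q) (br u g r k i) := by
  rw [pderiv_H, eval_br]
  simp only [map_sub, map_add, map_mul, map_pow, map_one, map_natCast, eval_C, h1]
  ring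

theorem aux (θ ζ z : ℂ) (k : ℕ) :
    (k : ℂ) * (θ * ζ) ^ (k - 1) * (θ * z) = θ ^ k * (k * ζ ^ (k - 1) * z) := by
  cases k with
  | zero => simp
  | succ k =>
    rw [Nat.add_sub_cancel]
    ring

theorem dl_pderiv_H (θ : ℂ) (q z : Option ι → ℂ)
    (h1 : eval (fun i => q (some i)) u = θ * q none)
    (h2 : dl (fun i => q (some i)) (fun i => z (some i)) u = θ * z none) (i : ι) :
    dl (fun i => q (some i)) (fun i => z (some i))
        (pderiv i (g * u ^ (k + 1) - C (θ ^ (k + 1)) * r)) =
      θ ^ k * dl (Sum.elim (fun _ => θ) q) (Sum.elim 0 z) (br u g r k i) := by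
  rw [pderiv_H, dl_br, dl_sub, dl_add, dl_mul, dl_mul, dl_mul, dl_mul, dl_mul, dl_C, dl_C, dl_pow,
    dl_pow', h1, h2, aux]
  simp only [map_mul, map_pow, map_add, map_one, map_natCast, eval_C, h1]
  ring

theorem dl_H (θ : ℂ) (q z : Option ι → ℂ)
    (h1 : eval (fun i => q (some i)) u = θ * q none)
    (h2 : dl (fun i => q (some i)) (fun i => z (some i)) u = θ * z none) :
    dl (fun i => q (some i)) (fun i => z (some i)) (g * u ^ (k + 1) - C (θ ^ (k + 1)) * r) =
      θ ^ (k + 1) * dl (Sum.elim (fun _ => θ) q) (Sum.elim 0 z)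
        (up g * X (Sum.inr none) ^ (k + 1) - up r) := by
  rw [dl_sub, dl_mul, dl_pow, dl_mul, dl_C, dl_sub, dl_mul, dl_pow, dl_X, dl_up, dl_up, h1, h2]
  simp only [map_pow, eval_C, h1, eval_up, eval_X, Sum.elim_inr]
  ring

end

end Sheet

open Sheet in
/-- D7, one sheet -/
theorem sheet {ι κ : Type} [Fintype ι] [Fintype κ] [DecidableEq ι] [DecidableEq κ]
    (hcard : Fintype.card ι = Fintype.card κ + 1) (u g r : MvPolynomial ι ℂ) (w : κ → ι → ℂ)
    (x : ι → ℂ) (hx : Pt u w x) (hg : eval x g ≠ 0) (hr : eval x r ≠ 0) (n : ℕ) (hn : 1 ≤ n)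
    (ε : ℝ) (hε : 0 < ε) :
    ∀ᶠ k : ℕ in atTop, ∃ x' : ι → ℂ, (∀ i, ‖x' i - x i‖ ≤ ε) ∧
      Pt (g * u ^ n - C ((1 / ((k : ℂ) + 1)) ^ n) * r) w x' ∧ eval x' u ≠ 0 := by
  classical
  obtain ⟨m, rfl⟩ : ∃ m, n = m + 1 := ⟨n - 1, by omega⟩
  -- the value of the new unknown
  obtain ⟨ζ, hζ⟩ : ∃ ζ : ℂ, ζ ^ (m + 1) = eval x r / eval x g :=
    IsAlgClosed.exists_pow_nat_eq _ (Nat.succ_pos m)
  have hζ0 : ζ ≠ 0 := by
    rintro rfl
    rw [zero_pow (Nat.succ_ne_zero m)] at hζ
    exact div_ne_zero hr hg hζ.symm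
  have hζ1 : eval x g * ζ ^ (m + 1) = eval x r := by
    rw [hζ]
    field_simp
  set q0 : Option ι → ℂ := fun o => o.elim ζ x with hq0
  have hq0s : (fun i => q0 (some i)) = x := rfl
  have hq0n : q0 none = ζ := rfl
  have hc : Tendsto (fun (k : ℕ) (_ : Unit) => 1 / ((k : ℂ) + 1)) atTop (𝓝 (fun _ => 0)) :=
    tendsto_pi_nhds.2 fun _ => tendsto_one_div_add_atTop_nhds_zero_nat
  have hU : {q : Option ι → ℂ | (∀ i, ‖q (some i) - x i‖ ≤ ε) ∧ q none ≠ 0} ∈ 𝓝 q0 := by
    apply Filter.inter_mem
    · refine Filter.mem_of_superset (Metric.ball_mem_nhds q0 hε) ?_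
      intro q hq i
      have h3 : dist (q (some i)) (q0 (some i)) ≤ ε :=
        (dist_le_pi_dist q q0 (some i)).trans (Metric.mem_ball.1 hq).le
      rwa [dist_eq_norm] at h3
    · exact (continuous_apply none).continuousAt.eventually_ne hζ0
  have hev := Pool.Agent.L5helper18.DC.zero_persists (s := Unit) (ι := Option ι) (o := Option (Option κ))
    (by rw [Fintype.card_option, Fintype.card_option, Fintype.card_option, hcard])
    (QQ u g r w m) (fun (k : ℕ) (_ : Unit) => 1 / ((k : ℂ) + 1)) (fun _ => 0) hc q0 (by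
      intro o
      rcases o with _ | _ | e
      · show eval _ (up u - X (Sum.inl ()) * X (Sum.inr none)) = 0
        rw [map_sub, eval_up, hq0s, hx.1]
        simp
      · show eval _ (up g * X (Sum.inr none) ^ (m + 1) - up r) = 0
        rw [map_sub, map_mul, eval_up, eval_up, hq0s, map_pow, eval_X, Sum.elim_inr, hq0n, hζ1,
          sub_self]
      · show eval _ (∑ i, C (w e i) * br u g r m i) = 0
        rw [map_sum]
        have h3 : ∀ i, eval (Sum.elim (fun _ => (0 : ℂ)) q0) (C (w e i) * br u g r m i) =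
            (((m : ℂ) + 1) * eval x g * ζ ^ m) * (w e i * eval x (pderiv i u)) := by
          intro i
          rw [map_mul, eval_C, eval_br, hq0s, hq0n]
          ring
        rw [sum_congr rfl fun i _ => h3 i, ← mul_sum, hx.2.1 e, mul_zero]) (by
      intro z hz
      have hz' : ∀ j, dl (Sum.elim (fun _ => (0 : ℂ)) q0) (Sum.elim 0 z) (QQ u g r w m j) = 0 := by
        intro j
        rw [dl_elim]
        exact hz j
      have e1 : dl x (fun i => z (some i)) u = 0 := by
        have h3 := hz' none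
        have h4 : dl (Sum.elim (fun _ => (0 : ℂ)) q0) (Sum.elim 0 z)
          (up u - X (Sum.inl ()) * X (Sum.inr none)) = 0 := h3
        rw [dl_sub, dl_up, dl_mul, dl_X, dl_X, hq0s] at h4
        simpa using h4
      have e3 : ∀ e, ∑ i, w e i * dl x (fun i => z (some i)) (pderiv i u) = 0 := by
        intro e
        have h4 : dl (Sum.elim (fun _ => (0 : ℂ)) q0) (Sum.elim 0 z)
          (∑ i, C (w e i) * br u g r m i) = 0 := hz' (some (some e))
        have h5 : ∀ i, dl (Sum.elim (fun _ => (0 : ℂ)) q0) (Sum.elim 0 z)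
            (C (w e i) * br u g r m i) =
            (((m : ℂ) + 1) * eval x g * ζ ^ m) *
              (w e i * dl x (fun i => z (some i)) (pderiv i u)) +
            (((m : ℂ) + 1) * (eval x g * (m * ζ ^ (m - 1) * z none) +
              ζ ^ m * dl x (fun i => z (some i)) g)) * (w e i * eval x (pderiv i u)) := by
          intro i
          rw [dl_mul, dl_C, dl_br, eval_C, hq0s, hq0n]
          ring
        rw [dl_sum, sum_congr rfl fun i _ => h5 i, sum_add_distrib, ← mul_sum, ← mul_sum,
          hx.2.1 e, mul_zero, add_zero] at h4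
        refine (mul_eq_zero.1 h4).resolve_left ?_
        have h6 : (m : ℂ) + 1 ≠ 0 := by exact_mod_cast Nat.succ_ne_zero m
        exact mul_ne_zero (mul_ne_zero h6 hg) (pow_ne_zero _ hζ0)
      have e2 : (fun i => z (some i)) = 0 := by
        refine hx.2.2 _ e1 fun e => ?_
        rw [← e3 e]
        refine sum_congr rfl fun i _ => ?_
        rw [dl, mul_sum]
        exact sum_congr rfl fun j _ => by ring
      have e4 : z none = 0 := by
        have h4 : dl (Sum.elim (fun _ => (0 : ℂ)) q0) (Sum.elim 0 z)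
          (up g * X (Sum.inr none) ^ (m + 1) - up r) = 0 := hz' (some none)
        have h7 : ∀ P : MvPolynomial ι ℂ, dl x (fun i => z (some i)) P = 0 := by
          intro P
          rw [e2]
          simp [dl]
        rw [dl_sub, dl_mul, dl_pow, dl_X, dl_up, dl_up, hq0s, h7, h7, eval_up, hq0s, eval_X,
          Sum.elim_inr, Sum.elim_inr, hq0n, mul_zero, add_zero, sub_zero] at h4
        have h6 : (m : ℂ) + 1 ≠ 0 := by exact_mod_cast Nat.succ_ne_zero m
        have h8 := (mul_eq_zero.1 h4).resolve_left hg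
        exact (mul_eq_zero.1 h8).resolve_left (mul_ne_zero h6 (pow_ne_zero _ hζ0))
      funext o
      rcases o with _ | i
      · exact e4
      · exact congrFun e2 i) _ hU
  filter_upwards [hev] with k hk
  obtain ⟨q, ⟨hq1, hq2⟩, hq3, hq4⟩ := hk
  set θ : ℂ := 1 / ((k : ℂ) + 1) with hθ
  have hθ0 : θ ≠ 0 := by
    have h6 : (k : ℂ) + 1 ≠ 0 := by exact_mod_cast Nat.succ_ne_zero k
    exact one_div_ne_zero h6
  have f1 : eval (fun i => q (some i)) u = θ * q none := by
    have h3 : eval (Sum.elim (fun _ => θ) q) (up u - X (Sum.inl ()) * X (Sum.inr none)) = 0 :=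
      hq3 none
    rw [map_sub, eval_up] at h3
    simpa [sub_eq_zero] using h3
  have f2 : eval (fun i => q (some i)) g * q none ^ (m + 1) - eval (fun i => q (some i)) r = 0 := by
    have h3 : eval (Sum.elim (fun _ => θ) q) (up g * X (Sum.inr none) ^ (m + 1) - up r) = 0 :=
      hq3 (some none)
    rw [map_sub, map_mul, eval_up, eval_up] at h3
    simpa using h3
  have f3 : ∀ e, ∑ i, w e i * eval (Sum.elim (fun _ => θ) q) (br u g r m i) = 0 := by
    intro e
    have h3 : eval (Sum.elim (fun _ => θ) q) (∑ i, C (w e i) * br u g r m i) = 0 :=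
      hq3 (some (some e))
    rw [map_sum] at h3
    rw [← h3]
    exact sum_congr rfl fun i _ => by rw [map_mul, eval_C]
  refine ⟨fun i => q (some i), hq1, ⟨?_, ?_, ?_⟩, ?_⟩
  · rw [eval_H u g r m θ q f1, f2, mul_zero]
  · intro e
    have h3 : ∀ i, w e i * eval (fun i => q (some i))
        (pderiv i (g * u ^ (m + 1) - C (θ ^ (m + 1)) * r)) =
        θ ^ m * (w e i * eval (Sum.elim (fun _ => θ) q) (br u g r m i)) := by
      intro i
      rw [eval_pderiv_H u g r m θ q f1]
      ring
    rw [sum_congr rfl fun i _ => h3 i, ← mul_sum, f3 e, mul_zero]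
  · intro y hy1 hy2
    set z : Option ι → ℂ := fun o => o.elim (dl (fun i => q (some i)) y u / θ) y with hz
    have g1 : (fun i => z (some i)) = y := rfl
    have g2 : dl (fun i => q (some i)) (fun i => z (some i)) u = θ * z none := by
      rw [g1]
      show _ = θ * (dl (fun i => q (some i)) y u / θ)
      field_simp
    have g3 : z = 0 := by
      apply hq4
      intro j
      rw [← dl_elim]
      rcases j with _ | _ | e
      · show dl _ _ (up u - X (Sum.inl ()) * X (Sum.inr none)) = 0
        rw [dl_sub, dl_up, dl_mul, dl_X, dl_X, g2]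
        simp
      · show dl _ _ (up g * X (Sum.inr none) ^ (m + 1) - up r) = 0
        have h4 := dl_H u g r m θ q z f1 g2
        rw [g1] at h4
        have h5 : dl (fun i => q (some i)) y (g * u ^ (m + 1) - C (θ ^ (m + 1)) * r) = 0 := hy1
        rw [h5] at h4
        exact (mul_eq_zero.1 h4.symm).resolve_left (pow_ne_zero _ hθ0)
      · show dl _ _ (∑ i, C (w e i) * br u g r m i) = 0
        have h5 : ∑ i, w e i * dl (fun i => q (some i)) y
            (pderiv i (g * u ^ (m + 1) - C (θ ^ (m + 1)) * r)) = 0 := by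
          rw [← hy2 e]
          refine sum_congr rfl fun i _ => ?_
          rw [dl, mul_sum]
          exact sum_congr rfl fun j _ => by ring
        have h6 : ∀ i, w e i * dl (fun i => q (some i)) y
            (pderiv i (g * u ^ (m + 1) - C (θ ^ (m + 1)) * r)) =
            θ ^ m * (w e i * dl (Sum.elim (fun _ => θ) q) (Sum.elim 0 z) (br u g r m i)) := by
          intro i
          have h7 := dl_pderiv_H u g r m θ q z f1 g2 i
          rw [g1] at h7
          rw [h7]
          ring
        rw [sum_congr rfl fun i _ => h6 i, ← mul_sum] at h5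
        have h8 := (mul_eq_zero.1 h5).resolve_left (pow_ne_zero _ hθ0)
        rw [dl_sum, ← h8]
        refine sum_congr rfl fun i _ => ?_
        rw [dl_mul, dl_C, eval_C, mul_zero, add_zero]
    rw [← g1, g3]
    rfl
  · rw [f1]
    exact mul_ne_zero hθ0 hq2

end Pool.Agent.L5helper59.DM
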